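import Pool.Agent.Helper52.BP.Sheet

/-!
# Row COMB of the project BP
-/

set_option autoImplicit false

namespace Pool.Helper52.BP

open Finset

namespace S1

theorem sum_one_card (q s : ℕ) : (∑ _u : Fin q → Fin s → Bool, (1 : ℝ)) = 2 ^ (q * s) := by
  rw [Finset.sum_const, nsmul_eq_mul, mul_one, Finset.card_univ]
  simp only [Fintype.card_fun, Fintype.card_fin, Fintype.card_bool]
  push_cast
  rw [← pow_mul, mul_comm]

theorem parity_eq (k : ℕ) :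
    (-1 : ℝ) ^ k = 1 - 2 * (if decide (k % 2 = 1) = true then (1 : ℝ) else 0) := by
  rcases Nat.even_or_odd k with h | h
  · have h1 : k % 2 = 0 := Nat.even_iff.mp h
    rw [h.neg_one_pow]
    simp [h1]
  · have h1 : k % 2 = 1 := Nat.odd_iff.mp h
    rw [h.neg_one_pow]
    simp [h1]
    norm_num

end S1

theorem st_COMB (hC : ST_CUT) (hB : ST_BNS) : ST_COMB := by
  intro n V T w m q s B W e io jj hq hw hm hT hR hW hio hacc
  obtain ⟨al, ph, hal, hph, hind, hsum⟩ := hC n V T w m q s B W e io jj hw hm hT hR hW hio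
  have hVn : 1 ≤ V := by
    have := B.src.pos
    omega
  have hV : (1 : ℝ) ≤ (V : ℝ) := by exact_mod_cast hVn
  have hVm : (1 : ℝ) ≤ (V : ℝ) ^ m := one_le_pow₀ hV
  have hμ0 : (0 : ℝ) ≤ (1 - (1 / 4 : ℝ) ^ q) ^ s := by
    apply pow_nonneg
    have : (1 / 4 : ℝ) ^ q ≤ 1 := pow_le_one₀ (by norm_num) (by norm_num)
    linarith
  have e1 : ∀ u : Fin q → Fin s → Bool,
      (-1 : ℝ) ^ ones u = 1 - 2 * ∑ la, al la * ∏ j, ph la j u := by
    intro u
    rw [← hsum u, hacc u]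
    exact S1.parity_eq _
  have e2 : ∀ u : Fin q → Fin s → Bool, (1 : ℝ) = (-1 : ℝ) ^ ones u
      - 2 * ∑ la, al la * ((-1 : ℝ) ^ ones u * ∏ j, ph la j u) := by
    intro u
    have h1 : (-1 : ℝ) ^ ones u * (-1 : ℝ) ^ ones u = 1 := by
      rw [← mul_pow]; norm_num
    have h2 : ∑ la, al la * ((-1 : ℝ) ^ ones u * ∏ j, ph la j u)
        = (-1 : ℝ) ^ ones u * ∑ la, al la * ∏ j, ph la j u := by
      rw [Finset.mul_sum]
      exact Finset.sum_congr rfl fun la _ => by ring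
    rw [h2]
    calc (1 : ℝ) = (-1 : ℝ) ^ ones u * (-1 : ℝ) ^ ones u := h1.symm
      _ = (-1 : ℝ) ^ ones u * (1 - 2 * ∑ la, al la * ∏ j, ph la j u) := by
          rw [← e1 u]
      _ = _ := by ring
  have e3 : (2 : ℝ) ^ (q * s) = (∑ u : Fin q → Fin s → Bool, (-1 : ℝ) ^ ones u)
      - 2 * ∑ la, al la * ∑ u : Fin q → Fin s → Bool, (-1 : ℝ) ^ ones u * ∏ j, ph la j u := by
    rw [← S1.sum_one_card, Finset.sum_congr rfl fun u _ => e2 u, Finset.sum_sub_distrib,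
      ← Finset.mul_sum, Finset.sum_comm]
    congr 2
    exact Finset.sum_congr rfl fun la _ => by rw [Finset.mul_sum]
  have b1 : |∑ u : Fin q → Fin s → Bool, (-1 : ℝ) ^ ones u|
      ≤ (1 - (1 / 4 : ℝ) ^ q) ^ s * 2 ^ (q * s) := by
    have := hB q s (fun _ _ => 1) hq (fun _ _ => by simp) (fun _ _ _ _ => rfl)
    simpa using this
  have b2 : ∀ la, |∑ u : Fin q → Fin s → Bool, (-1 : ℝ) ^ ones u * ∏ j, ph la j u|
      ≤ (1 - (1 / 4 : ℝ) ^ q) ^ s * 2 ^ (q * s) := fun la =>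
    hB q s (ph la) hq (hph la) (hind la)
  have b3 : |∑ la, al la * ∑ u : Fin q → Fin s → Bool, (-1 : ℝ) ^ ones u * ∏ j, ph la j u|
      ≤ (V : ℝ) ^ m * ((1 - (1 / 4 : ℝ) ^ q) ^ s * 2 ^ (q * s)) := by
    calc _ ≤ ∑ la : Fin m → Fin V, |al la * ∑ u : Fin q → Fin s → Bool,
            (-1 : ℝ) ^ ones u * ∏ j, ph la j u| := Finset.abs_sum_le_sum_abs _ _
      _ ≤ ∑ _la : Fin m → Fin V, (1 - (1 / 4 : ℝ) ^ q) ^ s * 2 ^ (q * s) := by
          refine Finset.sum_le_sum fun la _ => ?_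
          rw [abs_mul]
          calc _ ≤ 1 * ((1 - (1 / 4 : ℝ) ^ q) ^ s * 2 ^ (q * s)) :=
                mul_le_mul (hal la) (b2 la) (abs_nonneg _) zero_le_one
            _ = _ := one_mul _
      _ = _ := by
          rw [Finset.sum_const, nsmul_eq_mul, Finset.card_univ]
          simp only [Fintype.card_fun, Fintype.card_fin]
          push_cast
          ring
  have hP : (0 : ℝ) < 2 ^ (q * s) := by positivity
  have h4 : (2 : ℝ) ^ (q * s) ≤ (1 + 2 * (V : ℝ) ^ m) * (1 - (1 / 4 : ℝ) ^ q) ^ s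
      * 2 ^ (q * s) := by
    have c1 := (abs_le.mp b1).2
    have c2 := (abs_le.mp b3).1
    nlinarith [e3]
  have h5 : (1 : ℝ) ≤ (1 + 2 * (V : ℝ) ^ m) * (1 - (1 / 4 : ℝ) ^ q) ^ s := by
    have : (1 : ℝ) * 2 ^ (q * s) ≤ (1 + 2 * (V : ℝ) ^ m) * (1 - (1 / 4 : ℝ) ^ q) ^ s
      * 2 ^ (q * s) := by rw [one_mul]; exact h4
    exact le_of_mul_le_mul_right this hP
  calc (1 : ℝ) ≤ (1 + 2 * (V : ℝ) ^ m) * (1 - (1 / 4 : ℝ) ^ q) ^ s := h5
    _ ≤ 3 * (V : ℝ) ^ m * (1 - (1 / 4 : ℝ) ^ q) ^ s :=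
        mul_le_mul_of_nonneg_right (by linarith) hμ0

end Pool.Helper52.BP
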